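import Pool.Agent.Helper24.IA.St

/-!
# Project IA (MP_953b28_co), part A, module CHO: choice of the new vertices of the absorber
-/

set_option autoImplicit false

namespace Pool.Agent.Helper10.IA24

open Finset
open Pool.Agent.Helper93.IA Pool.Agent.Helper24.IA

private def n1 {n : ℕ} (A : Finset (Fin n × Fin n)) (a : Fin n) : Finset (Fin n) :=
  univ.filter fun b => (a, b) ∉ A

private def n2 {n : ℕ} (A : Finset (Fin n × Fin n)) (b : Fin n) : Finset (Fin n) :=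
  univ.filter fun a => (a, b) ∉ A

private theorem not_mem_n1 {n : ℕ} {A : Finset (Fin n × Fin n)} {a b : Fin n} :
    b ∉ n1 A a ↔ (a, b) ∈ A := by
  simp [n1]

private theorem not_mem_n2 {n : ℕ} {A : Finset (Fin n × Fin n)} {a b : Fin n} :
    a ∉ n2 A b ↔ (a, b) ∈ A := by
  simp [n2]

private def rk {I J K : Type} : Vx I J K → ℕ
  | Vx.x0 => 0
  | Vx.y _ => 1
  | Vx.z _ => 2
  | Vx.wA _ => 3
  | Vx.wB _ => 3
  | Vx.wC _ => 3
  | Vx.pR _ => 4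
  | Vx.pC _ => 4
  | Vx.pS _ => 4
  | Vx.qR _ => 5
  | Vx.qC _ => 5
  | Vx.qS _ => 5

private def Fb {n : ℕ} {F : Finset (Fin n)} {I J K : Type} (A B C : Finset (Fin n × Fin n))
    (D : Dt {x // x ∈ F} I J K) : Vx I J K → (Vx I J K → Fin n) → Finset (Fin n)
  | Vx.x0, _ => ∅
  | Vx.y _, g => n1 A (g Vx.x0)
  | Vx.z i, g => n1 B (g (Vx.y i)) ∪ n2 C (g Vx.x0)
  | Vx.wA i, g => n1 B (D.cA i).1 ∪ n2 C (D.rA i).1 ∪ n1 B (g (Vx.y i)) ∪ n2 C (g Vx.x0)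
  | Vx.wB j, g => n2 A (D.cB j).1 ∪ n1 C (D.sB j).1 ∪ n2 A (g (Vx.y (D.Q j))) ∪
      n1 C (g (Vx.z (D.Q j)))
  | Vx.wC k, g => n1 A (D.rC k).1 ∪ n2 B (D.sC k).1 ∪ n1 A (g Vx.x0) ∪
      n2 B (g (Vx.z (D.Q (D.S k))))
  | Vx.pR i, g => n1 A (D.rA i).1 ∪ n1 A (g Vx.x0) ∪ n2 B (g (Vx.wA i))
  | Vx.qR i, g => n2 C (D.rA i).1 ∪ n2 C (g Vx.x0) ∪ n1 B (g (Vx.pR i)) ∪
      n1 B (g (Vx.wC (D.R i)))
  | Vx.pC j, g => n1 B (D.cB j).1 ∪ n1 B (g (Vx.y (D.Q j))) ∪ n2 C (g (Vx.wB j))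
  | Vx.qC j, g => n2 A (D.cB j).1 ∪ n2 A (g (Vx.y (D.Q j))) ∪ n1 C (g (Vx.pC j)) ∪
      n1 C (g (Vx.wA (D.Q j)))
  | Vx.pS k, g => n1 C (D.sC k).1 ∪ n1 C (g (Vx.z (D.Q (D.S k)))) ∪ n2 A (g (Vx.wC k))
  | Vx.qS k, g => n2 B (D.sC k).1 ∪ n2 B (g (Vx.z (D.Q (D.S k)))) ∪ n1 A (g (Vx.pS k)) ∪
      n1 A (g (Vx.wB (D.S k)))

private theorem c1 {n d : ℕ} {s : Finset (Fin n)} (hs : s.card ≤ d) : s.card ≤ 4 * d := by
  omega

private theorem c2 {n d : ℕ} {s t : Finset (Fin n)} (hs : s.card ≤ d) (ht : t.card ≤ d) :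
    (s ∪ t).card ≤ 4 * d := by
  have h := card_union_le s t
  omega

private theorem c3 {n d : ℕ} {s t u : Finset (Fin n)} (hs : s.card ≤ d) (ht : t.card ≤ d)
    (hu : u.card ≤ d) : (s ∪ t ∪ u).card ≤ 4 * d := by
  have h := card_union_le s t
  have h' := card_union_le (s ∪ t) u
  omega

private theorem c4 {n d : ℕ} {s t u w : Finset (Fin n)} (hs : s.card ≤ d) (ht : t.card ≤ d)
    (hu : u.card ≤ d) (hw : w.card ≤ d) : (s ∪ t ∪ u ∪ w).card ≤ 4 * d := by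
  have h := card_union_le s t
  have h' := card_union_le (s ∪ t) u
  have h'' := card_union_le (s ∪ t ∪ u) w
  omega

private theorem card_Fb {n d : ℕ} {F : Finset (Fin n)} {I J K : Type}
    (A B C : Finset (Fin n × Fin n)) (D : Dt {x // x ∈ F} I J K)
    (h : ∀ i, m1 A univ i ≤ d ∧ m2 A univ i ≤ d ∧ m1 B univ i ≤ d ∧ m2 B univ i ≤ d ∧
      m1 C univ i ≤ d ∧ m2 C univ i ≤ d) (v : Vx I J K) (g : Vx I J K → Fin n) :
    (Fb A B C D v g).card ≤ 4 * d := by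
  have a1 : ∀ i, (n1 A i).card ≤ d := fun i => (h i).1
  have a2 : ∀ i, (n2 A i).card ≤ d := fun i => (h i).2.1
  have b1 : ∀ i, (n1 B i).card ≤ d := fun i => (h i).2.2.1
  have b2 : ∀ i, (n2 B i).card ≤ d := fun i => (h i).2.2.2.1
  have d1 : ∀ i, (n1 C i).card ≤ d := fun i => (h i).2.2.2.2.1
  have d2 : ∀ i, (n2 C i).card ≤ d := fun i => (h i).2.2.2.2.2
  cases v with
  | x0 => exact Nat.zero_le _
  | y i => exact c1 (a1 _)
  | z i => exact c2 (b1 _) (d2 _)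
  | wA i => exact c4 (b1 _) (d2 _) (b1 _) (d2 _)
  | wB j => exact c4 (a2 _) (d1 _) (a2 _) (d1 _)
  | wC k => exact c4 (a1 _) (b2 _) (a1 _) (b2 _)
  | pR i => exact c3 (a1 _) (a1 _) (b2 _)
  | qR i => exact c4 (d2 _) (d2 _) (b1 _) (b1 _)
  | pC j => exact c3 (b1 _) (b1 _) (d2 _)
  | qC j => exact c4 (a2 _) (a2 _) (d1 _) (d1 _)
  | pS k => exact c3 (d1 _) (d1 _) (a2 _)
  | qS k => exact c4 (b2 _) (b2 _) (a1 _) (a1 _)

private theorem loc_Fb {n : ℕ} {F : Finset (Fin n)} {I J K : Type}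
    (A B C : Finset (Fin n × Fin n)) (D : Dt {x // x ∈ F} I J K) (v : Vx I J K)
    (g g' : Vx I J K → Fin n) (h : ∀ u, rk u < rk v → g u = g' u) :
    Fb A B C D v g = Fb A B C D v g' := by
  cases v with
  | x0 => rfl
  | y i =>
    simp only [Fb]
    rw [h Vx.x0 (by simp [rk])]
  | z i =>
    simp only [Fb]
    rw [h Vx.x0 (by simp [rk]), h (Vx.y i) (by simp [rk])]
  | wA i =>
    simp only [Fb]
    rw [h Vx.x0 (by simp [rk]), h (Vx.y i) (by simp [rk])]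
  | wB j =>
    simp only [Fb]
    rw [h (Vx.y (D.Q j)) (by simp [rk]), h (Vx.z (D.Q j)) (by simp [rk])]
  | wC k =>
    simp only [Fb]
    rw [h Vx.x0 (by simp [rk]), h (Vx.z (D.Q (D.S k))) (by simp [rk])]
  | pR i =>
    simp only [Fb]
    rw [h Vx.x0 (by simp [rk]), h (Vx.wA i) (by simp [rk])]
  | qR i =>
    simp only [Fb]
    rw [h Vx.x0 (by simp [rk]), h (Vx.pR i) (by simp [rk]), h (Vx.wC (D.R i)) (by simp [rk])]
  | pC j =>
    simp only [Fb]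
    rw [h (Vx.y (D.Q j)) (by simp [rk]), h (Vx.wB j) (by simp [rk])]
  | qC j =>
    simp only [Fb]
    rw [h (Vx.y (D.Q j)) (by simp [rk]), h (Vx.pC j) (by simp [rk]),
      h (Vx.wA (D.Q j)) (by simp [rk])]
  | pS k =>
    simp only [Fb]
    rw [h (Vx.z (D.Q (D.S k))) (by simp [rk]), h (Vx.wC k) (by simp [rk])]
  | qS k =>
    simp only [Fb]
    rw [h (Vx.z (D.Q (D.S k))) (by simp [rk]), h (Vx.pS k) (by simp [rk]),
      h (Vx.wB (D.S k)) (by simp [rk])]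

/-- CHO: choice of the new vertices of the absorber. -/
theorem hCHO (hEMB : StEMB) : StCHO := by
  intro I J K _ _ _ _ _ _ n d A B C F D h hn hsz
  obtain ⟨g, hinj, hg⟩ := hEMB (Vx I J K) n F (4 * d) rk (Fb A B C D) hn (card_Fb A B C D h)
    (loc_Fb A B C D) (by rw [card_Vx]; exact hsz)
  have hy := fun i => (hg (Vx.y i)).2
  have hz := fun i => (hg (Vx.z i)).2
  have hwA := fun i => (hg (Vx.wA i)).2
  have hwB := fun j => (hg (Vx.wB j)).2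
  have hwC := fun k => (hg (Vx.wC k)).2
  have hpR := fun i => (hg (Vx.pR i)).2
  have hqR := fun i => (hg (Vx.qR i)).2
  have hpC := fun j => (hg (Vx.pC j)).2
  have hqC := fun j => (hg (Vx.qC j)).2
  have hpS := fun k => (hg (Vx.pS k)).2
  have hqS := fun k => (hg (Vx.qS k)).2
  simp only [Fb, mem_union, not_or, not_mem_n1, not_mem_n2] at hy hz hwA hwB hwC hpR
  simp only [Fb, mem_union, not_or, not_mem_n1, not_mem_n2] at hqR hpC hqC hpS hqS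
  refine ⟨g, hinj, fun v => (hg v).1, fun t => ?_⟩
  cases t with
  | t1 i => exact ⟨hy i, (hwA i).1.2, (hwA i).2⟩
  | t2 j => exact ⟨(hwB j).1.2, (hz (D.Q j)).1, (hwB j).2⟩
  | t3 k => exact ⟨(hwC k).1.2, (hwC k).2, (hz (D.Q (D.S k))).2⟩
  | g1 i => exact ⟨(hpR i).1.1, (hpR i).2, (hwA i).1.1.2⟩
  | g2 i =>
    have e := (hwC (D.R i)).1.1.1
    rw [D.hR i] at e
    exact ⟨e, (hqR i).2, (hqR i).1.1.1⟩
  | g3 i => exact ⟨(hpR i).1.2, (hqR i).1.2, (hqR i).1.1.2⟩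
  | h1 j => exact ⟨(hwB j).1.1.1, (hpC j).1.1, (hpC j).2⟩
  | h2 j =>
    have e := (hwA (D.Q j)).1.1.1
    rw [D.hQ j] at e
    exact ⟨(hqC j).1.1.1, e, (hqC j).2⟩
  | h3 j => exact ⟨(hqC j).1.1.2, (hpC j).1.2, (hqC j).1.2⟩
  | s1 k => exact ⟨(hpS k).2, (hwC k).1.1.2, (hpS k).1.1⟩
  | s2 k =>
    have e := (hwB (D.S k)).1.1.2
    rw [D.hS k] at e
    exact ⟨(hqS k).2, (hqS k).1.1.1, e⟩
  | s3 k => exact ⟨(hqS k).1.2, (hqS k).1.1.2, (hpS k).1.2⟩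

end Pool.Agent.Helper10.IA24
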